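import Mathlib
import Pool.Agent.Lib.MP_bf67b0_lc.Stmt
import Pool.Agent.Lib.MP_bf67b0_lc.Main

/-!
# Countable choice for boldface `Π¹₁` sets does not imply countable choice for boldface `Σ¹₂` sets

There is a countable transitive model of ZF in which every sequence of non-empty boldface `Π¹₁` sets
of reals has a choice function, but some sequence of non-empty boldface `Σ¹₂` sets of reals has none.
The definitions used in the statement are in `Stmt.lean`.
-/

namespace Pool.Agent.Results.MP_bf67b0_lc.PiSigmaChoice

open Pool.Agent.CC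

theorem result : ∃ n : ℕ, 1 ≤ n ∧ ∃ N : Set ZFSet.{0},
    N.Countable ∧ (∀ x ∈ N, ∀ y ∈ x, y ∈ N) ∧ ModelZF N ∧
      ACw N (PiC N n) ∧ ¬ ACw N (SigmaC N n) := main

end Pool.Agent.Results.MP_bf67b0_lc.PiSigmaChoice
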